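import Pool.Agent.W305.HG.Aut
import Pool.Agent.W305.NC.Qu

set_option autoImplicit false

/-!
# Complex structures on quotients of `G × G`, `G` a graded nilpotent Lie group

A homogeneous group is `G = ℝ ^ N` with a product `(x * y)_k = x_k + y_k + P_k(x, y)`, where `P_k` is
a real polynomial each monomial of which contains a coordinate of `x` and a coordinate of `y` and has
the weight `deg k`; here the coordinates `x_i` and `y_i` have the weight `deg i ≥ 1`. So the dilations
`x_i ↦ t ^ (deg i) x_i` are automorphisms of `G`. These are the simply connected nilpotent Lie groups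
the Lie algebras of which have a grading by positive integers, for example all two-step nilpotent
groups, the free nilpotent groups, the groups of unitriangular matrices and all Carnot groups.

* The group `G × G` has global smooth coordinates with values in `ℂ ^ N` in which all left
  translations, and all maps `(x, y) ↦ (φ x, φ y)` with a graded homomorphism `φ : G → G`, are
  holomorphic.

* Let `M` be a smooth manifold of dimension `2 N` which is a quotient of `G × G` by compositions of
  such maps, for example a compact nilmanifold `Γ \ (G × G)`, or an infranilmanifold with a diagonal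
  holonomy group. Then `M` is diffeomorphic to a complex manifold of dimension `N`.

The complex structure is the one of `(G_ℂ × G_ℂ) / {(x, δ x)}`, where `δ` is the dilation by a complex
number `ω` none of whose powers `ω ^ (deg k)` is real.
-/

namespace Pool.Agent.Results.MP_1d980c_gt.ProductsOfHomogeneousGroups

open scoped Manifold ContDiff

/-- The product `(x * y)_k = x_k + y_k + P_k(x, y)` on `ℝ ^ N`. -/
noncomputable def mul {N : ℕ} (P : Fin N → MvPolynomial (Fin N ⊕ Fin N) ℝ)
    (x y : Fin N → ℝ) : Fin N → ℝ :=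
  fun k => x k + y k + MvPolynomial.eval (Sum.elim x y) (P k)

/-- `ℝ ^ N` with the product `mul P` is a homogeneous group with the degrees `deg`: every monomial of
`P_k(x, y)` contains a coordinate of `x` and a coordinate of `y` and has the weight `deg k`, and the
product is associative. -/
structure IsHomogeneousGroup {N : ℕ} (deg : Fin N → ℕ)
    (P : Fin N → MvPolynomial (Fin N ⊕ Fin N) ℝ) : Prop where
  /-- the degrees are positive -/
  pos : ∀ k, 1 ≤ deg k
  /-- the monomials contain a coordinate of `x` and a coordinate of `y` -/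
  mixed : ∀ k, ∀ m ∈ (P k).support, (∃ i, m (Sum.inl i) ≠ 0) ∧ ∃ j, m (Sum.inr j) ≠ 0
  /-- the monomials of `P_k` have the weight `deg k` -/
  weight : ∀ k, ∀ m ∈ (P k).support,
    ∑ i, deg i * m (Sum.inl i) + ∑ j, deg j * m (Sum.inr j) = deg k
  /-- associativity -/
  assoc : ∀ x y z : Fin N → ℝ, mul P (mul P x y) z = mul P x (mul P y z)

theorem mul_eq {N : ℕ} (P : Fin N → MvPolynomial (Fin N ⊕ Fin N) ℝ) (x y : Fin N → ℝ) :
    mul P x y = Pool.Agent.W305.HG.op P x y := by
  funext k
  unfold mul Pool.Agent.W305.HG.op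
  rw [MvPolynomial.aeval_def, MvPolynomial.eval, Algebra.algebraMap_self]
  rfl

theorem good {N : ℕ} {deg : Fin N → ℕ} {P : Fin N → MvPolynomial (Fin N ⊕ Fin N) ℝ}
    (h : IsHomogeneousGroup deg P) : Pool.Agent.W305.HG.Good deg P :=
  ⟨h.pos, h.mixed, h.weight⟩

/-- A homogeneous group is a group with the neutral element `0`. -/
theorem group {N : ℕ} {deg : Fin N → ℕ} {P : Fin N → MvPolynomial (Fin N ⊕ Fin N) ℝ}
    (h : IsHomogeneousGroup deg P) :
    (∀ x, mul P 0 x = x ∧ mul P x 0 = x) ∧ ∀ x, ∃ y, mul P y x = 0 ∧ mul P x y = 0 := by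
  have hz : ∀ k, ∀ s : Fin N ⊕ Fin N → ℝ, ((∀ i, s (Sum.inl i) = 0) ∨ ∀ j, s (Sum.inr j) = 0) →
      MvPolynomial.eval s (P k) = 0 := fun k s hs => by
    rw [MvPolynomial.eval_eq']
    refine Finset.sum_eq_zero fun m hm => ?_
    obtain ⟨⟨i, hi⟩, ⟨j, hj⟩⟩ := h.mixed k m hm
    rcases hs with hs | hs
    · rw [Finset.prod_eq_zero (Finset.mem_univ (Sum.inl i)) (by rw [hs, zero_pow hi]), mul_zero]
    · rw [Finset.prod_eq_zero (Finset.mem_univ (Sum.inr j)) (by rw [hs, zero_pow hj]), mul_zero]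
  have h0 : ∀ x, mul P 0 x = x ∧ mul P x 0 = x := fun x => by
    constructor
    · funext k
      unfold mul
      rw [hz k _ (Or.inl fun i => rfl)]
      simp
    · funext k
      unfold mul
      rw [hz k _ (Or.inr fun i => rfl)]
      simp
  have hl : ∀ x, ∃ y, mul P y x = 0 := fun x => by
    let T : (Fin N → ℝ) → (Fin N → ℝ) := fun v k =>
      -x k - MvPolynomial.aeval (Sum.elim v x) (P k)
    have hT : Pool.Agent.W305.HG.Tri deg T := fun k v v' hv => by
      change -x k - MvPolynomial.aeval (Sum.elim v x) (P k) =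
        -x k - MvPolynomial.aeval (Sum.elim v' x) (P k)
      rw [(good h).tri hv (fun _ _ => rfl)]
    refine ⟨T^[Pool.Agent.W305.HG.bd deg] 0, ?_⟩
    have h1 := hT.fix h.pos 0
    rw [mul_eq]
    funext k
    have h2 := congrFun h1 k
    rw [Pool.Agent.W305.HG.op_apply]
    change -x k - MvPolynomial.aeval (Sum.elim _ x) (P k) = _ at h2
    rw [← h2]
    change -x k - MvPolynomial.aeval _ (P k) + x k + MvPolynomial.aeval _ (P k) = 0
    ring
  refine ⟨h0, fun x => ?_⟩
  obtain ⟨y, hy⟩ := hl x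
  obtain ⟨z, hz⟩ := hl y
  refine ⟨y, hy, ?_⟩
  have h3 : z = x := by
    have h4 := h.assoc z y x
    rw [hz, hy, (h0 _).1, (h0 _).2] at h4
    exact h4.symm
  rw [← h3]
  exact hz

/-- The polynomial map `φ : ℝ ^ N → ℝ ^ N`. -/
noncomputable def app {N : ℕ} (φ : Fin N → MvPolynomial (Fin N) ℝ) (x : Fin N → ℝ) : Fin N → ℝ :=
  fun k => MvPolynomial.eval x (φ k)

/-- `φ` is a graded homomorphism of the group: the monomials of `φ_k` have the weight `deg k`, so that
`φ` commutes with the dilations, and `φ (x * y) = φ x * φ y`. -/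
structure IsGradedHom {N : ℕ} (deg : Fin N → ℕ) (P : Fin N → MvPolynomial (Fin N ⊕ Fin N) ℝ)
    (φ : Fin N → MvPolynomial (Fin N) ℝ) : Prop where
  /-- the weights -/
  weight : ∀ k, ∀ m ∈ (φ k).support, ∑ i, deg i * m i = deg k
  /-- `φ` is a homomorphism -/
  hom : ∀ x y : Fin N → ℝ, app φ (mul P x y) = mul P (app φ x) (app φ y)

/-- The underlying manifold of `G × G`. -/
abbrev GG (N : ℕ) : Type := (Fin N → ℝ) × (Fin N → ℝ)

/-- The map `(x, y) ↦ g * (φ x, φ y)` of `G × G`. -/
noncomputable def affine {N : ℕ} (P : Fin N → MvPolynomial (Fin N ⊕ Fin N) ℝ) (g : GG N)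
    (φ : Fin N → MvPolynomial (Fin N) ℝ) (p : GG N) : GG N :=
  (mul P g.1 (app φ p.1), mul P g.2 (app φ p.2))

/-- There are global smooth coordinates `Φ` on `G × G` with values in `ℂ ^ N` in which all the maps
`(x, y) ↦ g * (φ x, φ y)` with `g` in `G × G` and a graded homomorphism `φ` are holomorphic. -/
def HolomorphicCoordinates {N : ℕ} (deg : Fin N → ℕ)
    (P : Fin N → MvPolynomial (Fin N ⊕ Fin N) ℝ) : Prop :=
  ∃ Φ : GG N ≃ₜ EuclideanSpace ℂ (Fin N), ContDiff ℝ ∞ Φ ∧ ContDiff ℝ ∞ Φ.symm ∧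
    ∀ (g : GG N) (φ : Fin N → MvPolynomial (Fin N) ℝ), IsGradedHom deg P φ →
      ContDiff ℂ ∞ (fun z : EuclideanSpace ℂ (Fin N) => Φ (affine P g φ (Φ.symm z)))

/-- `π : G × G → M` is a surjective smooth local diffeomorphism, and two points have the same image if
and only if the second one is the image of the first one under a map `(x, y) ↦ g * (φ x, φ y)` with
`(g, φ)` in `Γ`; here all `φ` are graded homomorphisms. -/
def IsQuotientMap {N : ℕ} (deg : Fin N → ℕ) (P : Fin N → MvPolynomial (Fin N ⊕ Fin N) ℝ)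
    (Γ : Set (GG N × (Fin N → MvPolynomial (Fin N) ℝ))) {M : Type}
    [TopologicalSpace M] [ChartedSpace (EuclideanSpace ℝ (Fin (2 * N))) M] (π : GG N → M) : Prop :=
  Function.Surjective π ∧ IsLocalDiffeomorph 𝓘(ℝ, GG N) (𝓡 (2 * N)) ∞ π ∧
    (∀ γ ∈ Γ, IsGradedHom deg P γ.2) ∧
    ∀ p q, π p = π q ↔ ∃ γ ∈ Γ, affine P γ.1 γ.2 p = q

/-- The smooth manifold `M` of dimension `2 N` is diffeomorphic to a complex manifold of dimension
`N` (as in the frozen statement). -/
def DiffeomorphicToComplex (N : ℕ) (M : Type) [TopologicalSpace M]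
    [ChartedSpace (EuclideanSpace ℝ (Fin (2 * N))) M] : Prop :=
  ∃ (X : Type) (_ : TopologicalSpace X) (_ : ChartedSpace (EuclideanSpace ℂ (Fin N)) X),
    IsManifold 𝓘(ℂ, EuclideanSpace ℂ (Fin N)) ∞ X ∧
    Nonempty (Diffeomorph (𝓡 (2 * N)) 𝓘(ℝ, EuclideanSpace ℂ (Fin N)) M X ∞)

theorem app_eq {N : ℕ} (φ : Fin N → MvPolynomial (Fin N) ℝ) (x : Fin N → ℝ) :
    app φ x = Pool.Agent.W305.HG.ap φ x := by
  funext k
  unfold app Pool.Agent.W305.HG.ap
  rw [MvPolynomial.aeval_def, MvPolynomial.eval, Algebra.algebraMap_self]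
  rfl

/-- The identity is a graded homomorphism, so the maps of `HolomorphicCoordinates` contain the left
translations. -/
theorem isGradedHom_id {N : ℕ} (deg : Fin N → ℕ) (P : Fin N → MvPolynomial (Fin N ⊕ Fin N) ℝ) :
    IsGradedHom deg P (fun k => MvPolynomial.X k) ∧
      ∀ x : Fin N → ℝ, app (fun k => MvPolynomial.X k) x = x := by
  have h0 : ∀ x : Fin N → ℝ, app (fun k => MvPolynomial.X k) x = x := fun x => by
    funext k
    exact MvPolynomial.eval_X _
  refine ⟨⟨fun k m hm => ?_, fun x y => by rw [h0, h0, h0]⟩, h0⟩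
  rw [MvPolynomial.support_X, Finset.mem_singleton] at hm
  subst hm
  rw [Finset.sum_eq_single k (fun i _ hi => by
    rw [Finsupp.single_eq_of_ne hi, mul_zero]) (fun hk => absurd (Finset.mem_univ k) hk),
    Finsupp.single_eq_same, mul_one]

theorem result (N : ℕ) (deg : Fin N → ℕ) (P : Fin N → MvPolynomial (Fin N ⊕ Fin N) ℝ)
    (h : IsHomogeneousGroup deg P) :
    -- global coordinates in which the left translations of `G × G` are holomorphic
    HolomorphicCoordinates deg P ∧
    -- smooth manifolds which are quotients of `G × G` carry complex structures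
    (∀ (M : Type) [TopologicalSpace M] [ChartedSpace (EuclideanSpace ℝ (Fin (2 * N))) M]
      [IsManifold (𝓡 (2 * N)) ∞ M] (Γ : Set (GG N × (Fin N → MvPolynomial (Fin N) ℝ)))
      (π : GG N → M), IsQuotientMap deg P Γ π → DiffeomorphicToComplex N M) := by
  have hg := good h
  have ha : ∀ x y z : Fin N → ℝ, Pool.Agent.W305.HG.op P (Pool.Agent.W305.HG.op P x y) z =
      Pool.Agent.W305.HG.op P x (Pool.Agent.W305.HG.op P y z) := fun x y z => by
    simp only [← mul_eq]
    exact h.assoc x y z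
  let e : EuclideanSpace ℂ (Fin N) ≃L[ℂ] (Fin N → ℂ) := EuclideanSpace.equiv (Fin N) ℂ
  have he : ContDiff ℂ ∞ e := e.contDiff
  have he' : ContDiff ℂ ∞ e.symm := e.symm.contDiff
  let Φ : GG N ≃ₜ EuclideanSpace ℂ (Fin N) :=
    { toFun := fun p => e.symm (Pool.Agent.W305.HG.ph deg P p)
      invFun := fun z => Pool.Agent.W305.HG.ps deg P (e z)
      left_inv := fun p => by
        change Pool.Agent.W305.HG.ps deg P (e (e.symm (Pool.Agent.W305.HG.ph deg P p))) = p
        rw [e.apply_symm_apply]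
        exact hg.ps_ph p
      right_inv := fun z => by
        change e.symm (Pool.Agent.W305.HG.ph deg P (Pool.Agent.W305.HG.ps deg P (e z))) = z
        rw [hg.ph_ps]
        exact e.symm_apply_apply z
      continuous_toFun := e.symm.continuous.comp
        (Pool.Agent.W305.HG.contDiff_ph (deg := deg) (P := P)).continuous
      continuous_invFun :=
        (Pool.Agent.W305.HG.contDiff_ps (deg := deg) (P := P)).continuous.comp e.continuous }
  have h1 : ContDiff ℝ ∞ Φ := (he'.restrict_scalars ℝ).comp Pool.Agent.W305.HG.contDiff_ph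
  have h2 : ContDiff ℝ ∞ Φ.symm := Pool.Agent.W305.HG.contDiff_ps.comp (he.restrict_scalars ℝ)
  have h3 : ∀ (g : GG N) (φ : Fin N → MvPolynomial (Fin N) ℝ), IsGradedHom deg P φ →
      ContDiff ℂ ∞ (fun z : EuclideanSpace ℂ (Fin N) => Φ (affine P g φ (Φ.symm z))) :=
    fun g φ hφ => by
    have hhom : ∀ x y : Fin N → ℝ, Pool.Agent.W305.HG.ap φ (Pool.Agent.W305.HG.op P x y) =
        Pool.Agent.W305.HG.op P (Pool.Agent.W305.HG.ap φ x) (Pool.Agent.W305.HG.ap φ y) :=
      fun x y => by
        simp only [← mul_eq, ← app_eq]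
        exact hφ.hom x y
    have hw : Pool.Agent.W305.HG.Gr deg φ := hφ.weight
    have h4 : ∀ z : EuclideanSpace ℂ (Fin N), Φ (affine P g φ (Φ.symm z)) =
        e.symm (Pool.Agent.W305.HG.sol deg P (Pool.Agent.W305.HG.op P
          (Pool.Agent.W305.HG.cx g.2) (Pool.Agent.W305.HG.ap φ (e z)))
          (Pool.Agent.W305.HG.dl deg g.1)) := fun z => by
      change e.symm (Pool.Agent.W305.HG.ph deg P
        (mul P g.1 (app φ (Pool.Agent.W305.HG.ps deg P (e z)).1),
          mul P g.2 (app φ (Pool.Agent.W305.HG.ps deg P (e z)).2))) = _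
      rw [mul_eq, mul_eq, app_eq, app_eq, hg.ph_op ha, hg.ph_ap hw hhom, Prod.mk.eta, hg.ph_ps]
    simp only [h4]
    exact he'.comp (Pool.Agent.W305.HG.contDiff_sol
      (Pool.Agent.W305.HG.contDiff_op contDiff_const (Pool.Agent.W305.HG.contDiff_ap he))
      contDiff_const)
  refine ⟨⟨Φ, h1, h2, h3⟩, ?_⟩
  rintro M _ _ _ Γ π ⟨hs, hl, hΓ, hπ⟩
  refine Pool.Agent.W305.NC.quotient Φ π hl h1 h2
    {f | ∃ γ ∈ Γ, f = affine P γ.1 γ.2} ?_ ?_ hs
  · rintro f ⟨γ, hγ, rfl⟩
    exact h3 γ.1 γ.2 (hΓ γ hγ)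
  · intro x y
    rw [hπ]
    constructor
    · rintro ⟨γ, hγ, hxy⟩
      exact ⟨_, ⟨γ, hγ, rfl⟩, hxy⟩
    · rintro ⟨f, ⟨γ, hγ, rfl⟩, hxy⟩
      exact ⟨γ, hγ, hxy⟩

end Pool.Agent.Results.MP_1d980c_gt.ProductsOfHomogeneousGroups
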