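import Pool.Agent.W305.LC.Lm
import Pool.Agent.W305.NC.Qu

set_option autoImplicit false

/-!
# Complex structures on two-step nilmanifolds with large commutator group

Let `G` be a simply connected two-step nilpotent Lie group of real dimension `2k` with center `Z(G)`,
let `dim G / Z(G) = 2m`, and assume that `dim [G, G] ≥ 2m(m - 1)`; the largest possible value of
`dim [G, G]` is `m(2m - 1) = 2m(m - 1) + m`. `G` is given by its Lie algebra: a real vector space `V`
with a Lie bracket `β` such that `[[x, y], z] = 0`, and the product of `G` is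
`x * y = x + y + [x, y] / 2`.

* `G` has a left-invariant complex structure: there is a `J : V → V` with `J² = -1` and vanishing
  Nijenhuis tensor.

* `G` has a global smooth system of coordinates with values in `ℂ ^ k` in which all left translations
  are complex affine maps.

* Let `M` be a smooth manifold of dimension `2k` which is a quotient of `G` by left translations, for
  example a compact nilmanifold `Γ \ G`. Then `M` carries a complex structure: `M` is diffeomorphic
  to a complex manifold of dimension `k`.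

For example all free two-step nilpotent groups with `2m` generators are such groups, after
multiplication by `ℝ` if their dimension is odd.
-/

namespace Pool.Agent.Results.MP_1d980c_gt.TwoStepLargeCommutator

open Complex Module
open scoped Manifold ContDiff

/-- `β` is the Lie bracket of a two-step nilpotent (or abelian) Lie algebra: it is alternating, and
`[[x, y], z] = 0` for all `x`, `y`, `z`. -/
structure IsTwoStep {V : Type} [AddCommGroup V] [Module ℝ V] (β : V →ₗ[ℝ] V →ₗ[ℝ] V) : Prop where
  alt : ∀ x, β x x = 0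
  step : ∀ x y z, β (β x y) z = 0

/-- The dimension of the commutator algebra, the span of all `[x, y]`. -/
noncomputable def commutatorDim {V : Type} [AddCommGroup V] [Module ℝ V]
    (β : V →ₗ[ℝ] V →ₗ[ℝ] V) : ℕ :=
  finrank ℝ (Submodule.span ℝ {v | ∃ x y, β x y = v})

/-- The dimension of the center `{x | [x, y] = 0 for all y}`. -/
noncomputable def centerDim {V : Type} [AddCommGroup V] [Module ℝ V]
    (β : V →ₗ[ℝ] V →ₗ[ℝ] V) : ℕ :=
  finrank ℝ (LinearMap.ker β)

/-- The product `x * y = x + y + [x, y] / 2` of the simply connected Lie group with Lie algebra `V`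
(the Baker-Campbell-Hausdorff product). -/
noncomputable def mul {V : Type} [AddCommGroup V] [Module ℝ V] (β : V →ₗ[ℝ] V →ₗ[ℝ] V)
    (x y : V) : V :=
  x + y + (1 / 2 : ℝ) • β x y

/-- The product is associative (so this is a group with neutral element `0` and inverse `-x`). -/
theorem mul_assoc' {V : Type} [AddCommGroup V] [Module ℝ V] {β : V →ₗ[ℝ] V →ₗ[ℝ] V}
    (h : IsTwoStep β) (x y z : V) : mul β (mul β x y) z = mul β x (mul β y z) := by
  have ha : ∀ p q, β p q = - β q p := fun p q => by
    have h1 := h.alt (p + q)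
    simp only [map_add, LinearMap.add_apply, h.alt, zero_add, add_zero] at h1
    exact eq_neg_of_add_eq_zero_right h1
  have h2 : β x (β y z) = 0 := by rw [ha, h.step, neg_zero]
  simp only [mul, map_add, map_smul, LinearMap.add_apply, LinearMap.smul_apply, h.step, h2,
    smul_zero, add_zero, smul_add]
  abel

theorem result (k m : ℕ) (V : Type) [NormedAddCommGroup V] [NormedSpace ℝ V]
    [FiniteDimensional ℝ V] (hV : finrank ℝ V = 2 * k) (β : V →ₗ[ℝ] V →ₗ[ℝ] V)
    (h : IsTwoStep β) (hZ : centerDim β + 2 * m = 2 * k)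
    (hD : 2 * m * (m - 1) ≤ commutatorDim β) :
    -- a left-invariant complex structure
    (∃ J : V →ₗ[ℝ] V, (∀ x, J (J x) = -x) ∧
      ∀ x y, β (J x) (J y) - J (β (J x) y) - J (β x (J y)) - β x y = 0) ∧
    -- global coordinates in which the left translations are complex affine
    (∃ Φ : V ≃ₜ EuclideanSpace ℂ (Fin k), ContDiff ℝ ∞ Φ ∧ ContDiff ℝ ∞ Φ.symm ∧
      ∀ g : V, ∃ (c : EuclideanSpace ℂ (Fin k))
        (L : EuclideanSpace ℂ (Fin k) →L[ℂ] EuclideanSpace ℂ (Fin k)),
        ∀ z, Φ (mul β g (Φ.symm z)) = c + L z) ∧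
    -- smooth manifolds which are quotients by left translations carry complex structures
    (∀ (M : Type) [TopologicalSpace M] [ChartedSpace (EuclideanSpace ℝ (Fin (2 * k))) M]
      [IsManifold (𝓡 (2 * k)) ∞ M] (Γ : Set V) (π : V → M), Function.Surjective π →
      IsLocalDiffeomorph 𝓘(ℝ, V) (𝓡 (2 * k)) ∞ π →
      (∀ x y, π x = π y ↔ ∃ γ ∈ Γ, mul β γ x = y) →
      ∃ (N : Type) (_ : TopologicalSpace N) (_ : ChartedSpace (EuclideanSpace ℂ (Fin k)) N),
        IsManifold 𝓘(ℂ, EuclideanSpace ℂ (Fin k)) ∞ N ∧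
        Nonempty (Diffeomorph (𝓡 (2 * k)) 𝓘(ℝ, EuclideanSpace ℂ (Fin k)) M N ∞)) := by
  obtain ⟨J, Φ0, h1, h2, h3, h4, h5⟩ :=
    Pool.Agent.W305.LC.coords_large β h.alt h.step hV hZ hD
  let Φ : V ≃ₜ EuclideanSpace ℂ (Fin k) :=
    { toEquiv := Φ0
      continuous_toFun := h3.continuous
      continuous_invFun := h4.continuous }
  have h5' : ∀ g : V, ∃ (c : EuclideanSpace ℂ (Fin k))
        (L : EuclideanSpace ℂ (Fin k) →L[ℂ] EuclideanSpace ℂ (Fin k)),
        ∀ z, Φ (mul β g (Φ.symm z)) = c + L z := h5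
  refine ⟨⟨J, h1, h2⟩, ⟨Φ, h3, h4, h5'⟩, ?_⟩
  intro M _ _ _ Γ π hs hl hπ
  refine Pool.Agent.W305.NC.quotient Φ π hl h3 h4 {g | ∃ γ ∈ Γ, g = mul β γ} ?_ ?_ hs
  · rintro g ⟨γ, -, rfl⟩
    obtain ⟨c, L, hL⟩ := h5' γ
    have : (fun z => Φ (mul β γ (Φ.symm z))) = fun z => c + L z := funext hL
    rw [this]
    exact contDiff_const.add L.contDiff
  · intro x y
    rw [hπ]
    constructor
    · rintro ⟨γ, hγ, hxy⟩
      exact ⟨mul β γ, ⟨γ, hγ, rfl⟩, hxy⟩
    · rintro ⟨g, ⟨γ, hγ, rfl⟩, hxy⟩
      exact ⟨γ, hγ, hxy⟩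

end Pool.Agent.Results.MP_1d980c_gt.TwoStepLargeCommutator
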